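import Mathlib

set_option autoImplicit false

/-!
# MP_2da57a_co, Q1: the poset of completary multifuncoids of the form `(𝒫 ℕ)^ℕ` is not atomic
-/

namespace Pool.Agent.Results.MP_2da57a_co.NotAtomic

/-- `f ⊆ (𝒫 U)^n` is a completary multifuncoid: (1) `L 0 ∪ L 1 ∈ f` (componentwise union) iff
there is `c : n → {0, 1}` with `(L (c i) i)_i ∈ f`; (2) no family with an empty member is in `f`. -/
def IsCompletary {U n : Type*} (f : Set (n → Set U)) : Prop :=
  (∀ L : Fin 2 → (n → Set U),
    (fun i => L 0 i ∪ L 1 i) ∈ f ↔ ∃ c : n → Fin 2, (fun i => L (c i) i) ∈ f) ∧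
  ∀ L : n → Set U, (∃ i, L i = ∅) → L ∉ f

/-- The completary multifuncoids of the form `(𝒫 U)^n`, ordered by inclusion. -/
abbrev Multifuncoid (U n : Type*) : Type _ := {f : Set (n → Set U) // IsCompletary f}

/-- The empty set is the least completary multifuncoid. -/
instance (U n : Type*) : OrderBot (Multifuncoid U n) where
  bot := ⟨∅, by
    refine ⟨fun L => ?_, fun L _ h => h⟩
    simp⟩
  bot_le f := Set.empty_subset f.1

section
variable {U n : Type*}

lemma up_closed {f : Set (n → Set U)} (hf : IsCompletary f) {A B : n → Set U}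
    (hA : A ∈ f) (hAB : ∀ i, A i ⊆ B i) : B ∈ f := by
  have h := (hf.1 (fun k => if k = 0 then A else B)).2 ⟨fun _ => 0, by simpa using hA⟩
  have h2 : (fun i => A i ∪ B i) = B := by
    funext i
    exact Set.union_eq_self_of_subset_left (hAB i)
  simpa [h2] using h

/-- the restriction of `f` to a family `A` -/
def restr (f : Set (n → Set U)) (A : n → Set U) : Set (n → Set U) :=
  {L | (fun i => L i ∩ A i) ∈ f}

lemma restr_completary {f : Set (n → Set U)} (hf : IsCompletary f) (A : n → Set U) :
    IsCompletary (restr f A) := by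
  refine ⟨fun L => ?_, ?_⟩
  · have h := hf.1 (fun k i => L k i ∩ A i)
    simp only [restr, Set.mem_ofPred_eq]
    rw [← h]
    have : (fun i => (L 0 i ∪ L 1 i) ∩ A i) = fun i => L 0 i ∩ A i ∪ L 1 i ∩ A i := by
      funext i
      exact Set.union_inter_distrib_right _ _ _
    rw [this]
  · rintro L ⟨i, hi⟩ hL
    exact hf.2 _ ⟨i, by simp [hi]⟩ hL

/-- an atom is closed under intersections -/
lemma inter_mem {a : Multifuncoid U n} (ha : IsAtom a) {A B : n → Set U}
    (hA : A ∈ a.1) (hB : B ∈ a.1) : (fun i => B i ∩ A i) ∈ a.1 := by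
  let b : Multifuncoid U n := ⟨restr a.1 A, restr_completary a.2 A⟩
  have hle : b ≤ a := by
    intro L hL
    exact up_closed a.2 hL (fun i => Set.inter_subset_left)
  have hne : b ≠ ⊥ := by
    intro h
    have h1 : (fun _ => Set.univ : n → Set U) ∈ b.1 := by
      change (fun i => Set.univ ∩ A i) ∈ a.1
      simpa using hA
    rw [h] at h1
    exact h1
  have hab : b = a := by
    rcases hle.eq_or_lt with h | h
    · exact h
    · exact absurd (ha.2 b h) hne
  have : B ∈ b.1 := by rw [hab]; exact hB
  exact this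

end

/-- The multifuncoid without atoms below it. -/
def F : Set (ℕ → Set ℕ) :=
  {L | (∀ i, (L i ∩ Set.Iic i).Nonempty) ∧
    ∀ m : ℕ, ∀ᶠ i in Filter.atTop, m ≤ (L i ∩ Set.Iic i).ncard}

lemma fin (S : Set ℕ) (i : ℕ) : (S ∩ Set.Iic i).Finite := (Set.finite_Iic i).inter_of_right _

lemma F_completary : IsCompletary F := by
  refine ⟨fun L => ⟨?_, ?_⟩, ?_⟩
  · rintro ⟨h1, h2⟩
    classical
    let c : ℕ → Fin 2 := fun i =>
      if (L 1 i ∩ Set.Iic i).ncard ≤ (L 0 i ∩ Set.Iic i).ncard then 0 else 1
    have key : ∀ i, ((L 0 i ∪ L 1 i) ∩ Set.Iic i).ncard ≤ 2 * (L (c i) i ∩ Set.Iic i).ncard := by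
      intro i
      have h3 : ((L 0 i ∪ L 1 i) ∩ Set.Iic i).ncard ≤
          (L 0 i ∩ Set.Iic i).ncard + (L 1 i ∩ Set.Iic i).ncard := by
        rw [Set.union_inter_distrib_right]
        exact Set.ncard_union_le _ _
      by_cases h : (L 1 i ∩ Set.Iic i).ncard ≤ (L 0 i ∩ Set.Iic i).ncard
      · simp only [c, h, if_true]
        omega
      · simp only [c, h, if_false]
        omega
    refine ⟨c, fun i => ?_, fun m => ?_⟩
    · have h4 : 0 < ((L 0 i ∪ L 1 i) ∩ Set.Iic i).ncard := by
        rw [Set.ncard_pos (fin _ _)]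
        exact h1 i
      have h5 := key i
      have h6 : 0 < (L (c i) i ∩ Set.Iic i).ncard := by omega
      exact (Set.ncard_pos (fin _ _)).1 h6
    · filter_upwards [h2 (2 * m)] with i hi
      have h5 := key i
      have h7 : 2 * m ≤ ((L 0 i ∪ L 1 i) ∩ Set.Iic i).ncard := hi
      change m ≤ (L (c i) i ∩ Set.Iic i).ncard
      omega
  · rintro ⟨c, h1, h2⟩
    have hsub : ∀ i, L (c i) i ∩ Set.Iic i ⊆ (L 0 i ∪ L 1 i) ∩ Set.Iic i := by
      intro i
      apply Set.inter_subset_inter_left
      have : c i = 0 ∨ c i = 1 := by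
        have := (c i).2
        rcases h : c i with ⟨k, hk⟩
        interval_cases k
        · left; rfl
        · right; rfl
      rcases this with h | h
      · rw [h]; exact Set.subset_union_left
      · rw [h]; exact Set.subset_union_right
    refine ⟨fun i => (h1 i).mono (hsub i), fun m => ?_⟩
    filter_upwards [h2 m] with i hi
    exact le_trans hi (Set.ncard_le_ncard (hsub i) (fin _ _))
  · rintro L ⟨i, hi⟩ ⟨h1, _⟩
    have := h1 i
    rw [hi] at this
    simp at this

lemma fin2_cases (x : Fin 2) : x = 0 ∨ x = 1 := by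
  fin_cases x <;> simp

lemma no_atom (a : Multifuncoid ℕ ℕ) (ha : IsAtom a) (hle : a.1 ⊆ F) : False := by
  classical
  -- a member
  have hne : ∃ L, L ∈ a.1 := by
    by_contra hcon
    push Not at hcon
    apply ha.1
    apply Subtype.ext
    exact Set.eq_empty_of_forall_notMem hcon
  obtain ⟨L, hL⟩ := hne
  -- cut with the initial segments
  have hfinmem : ∃ M ∈ a.1, ∀ i, (M i).Finite := by
    have h := (a.2.1 (fun k i => if k = 0 then L i ∩ Set.Iic i else L i \ Set.Iic i)).1 (by
      simp only [if_true]
      have : (fun i => L i ∩ Set.Iic i ∪ (if (1 : Fin 2) = 0 then L i ∩ Set.Iic i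
          else L i \ Set.Iic i)) = L := by
        funext i
        simp
      rw [this]
      exact hL)
    obtain ⟨c, hc⟩ := h
    refine ⟨_, hc, fun i => ?_⟩
    have h1 := (hle hc).1 i
    rcases fin2_cases (c i) with h | h
    · simp only [h, if_true]
      exact fin _ _
    · exfalso
      simp only [h] at h1
      obtain ⟨x, hx, hx2⟩ := h1
      simp at hx
      have := Set.mem_Iic.1 hx2
      omega
  obtain ⟨M, hM, hMfin⟩ := hfinmem
  -- each coordinate is principal
  have hprin : ∀ i, ∃ x, ∃ P ∈ a.1, P i = {x} := by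
    intro i
    have hex : ∃ k, ∃ P ∈ a.1, (P i).Finite ∧ (P i).ncard = k := ⟨_, M, hM, hMfin i, rfl⟩
    obtain ⟨P, hP, hPfin, hPk⟩ := Nat.find_spec hex
    have hmin := fun m (hm : m < Nat.find hex) => Nat.find_min hex hm
    have hpos : (P i).Nonempty := by
      rw [Set.nonempty_iff_ne_empty]
      intro h
      exact a.2.2 P ⟨i, h⟩ hP
    by_cases h1 : (P i).ncard = 1
    · obtain ⟨x, hx⟩ := Set.ncard_eq_one.1 h1
      exact ⟨x, P, hP, hx⟩
    · exfalso
      obtain ⟨x, hx⟩ := hpos
      have hp : 0 < (P i).ncard := (Set.ncard_pos hPfin).2 ⟨x, hx⟩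
      have h := (a.2.1 (fun k => if k = 0 then Function.update P i {x}
        else Function.update P i (P i \ {x}))).1 (by
          simp only [if_true]
          convert hP using 1
          funext j
          by_cases hj : j = i
          · subst hj
            simp only [Function.update_self, Fin.one_eq_zero_iff, OfNat.ofNat_ne_one, if_false]
            ext y
            simp only [Set.mem_union, Set.mem_singleton_iff, Set.mem_sdiff]
            constructor
            · rintro (rfl | h)
              · exact hx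
              · exact h.1
            · intro hy
              by_cases hyx : y = x
              · left; exact hyx
              · right; exact ⟨hy, hyx⟩
          · simp [Function.update_of_ne hj])
      obtain ⟨c, hc⟩ := h
      rcases fin2_cases (c i) with h | h
      · apply hmin 1 (by omega)
        refine ⟨_, hc, ?_, ?_⟩
        · simp [h]
        · simp [h]
      · apply hmin ((P i).ncard - 1) (by omega)
        refine ⟨_, hc, ?_, ?_⟩
        · simp only [h, Fin.one_eq_zero_iff, OfNat.ofNat_ne_one, if_false, Function.update_self]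
          exact hPfin.sdiff
        · simp only [h, Fin.one_eq_zero_iff, OfNat.ofNat_ne_one, if_false, Function.update_self]
          rw [Set.ncard_sdiff_singleton_of_mem hx]
  choose x P hP hPx using hprin
  -- the family of singletons
  have hsing : (fun i => ({x i} : Set ℕ)) ∈ a.1 := by
    have h := (a.2.1 (fun k i => if k = 0 then M i ∩ {x i} else M i \ {x i})).1 (by
      simp only [if_true]
      convert hM using 1
      funext i
      simp)
    obtain ⟨c, hc⟩ := h
    have hmem : ∀ i, x i ∈ (if c i = 0 then M i ∩ {x i} else M i \ {x i}) := by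
      intro i
      have h1 := inter_mem ha hc (hP i)
      have h2 : (P i i ∩ (if c i = 0 then M i ∩ {x i} else M i \ {x i})).Nonempty := by
        rw [Set.nonempty_iff_ne_empty]
        intro h3
        exact a.2.2 _ ⟨i, h3⟩ h1
      rw [hPx i] at h2
      obtain ⟨y, hy1, hy2⟩ := h2
      rw [Set.mem_singleton_iff] at hy1
      rw [hy1] at hy2
      exact hy2
    refine up_closed a.2 hc (fun i => ?_)
    have h3 := hmem i
    rcases fin2_cases (c i) with h | h
    · simp only [h, if_true]
      exact Set.inter_subset_right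
    · simp [h] at h3
  have hF := hle hsing
  obtain ⟨i, hi⟩ := (hF.2 2).exists
  have hi2 : 2 ≤ (({x i} : Set ℕ) ∩ Set.Iic i).ncard := hi
  have h4 : (({x i} : Set ℕ) ∩ Set.Iic i).ncard ≤ ({x i} : Set ℕ).ncard :=
    Set.ncard_le_ncard Set.inter_subset_left (Set.finite_singleton _)
  rw [Set.ncard_singleton] at h4
  omega

lemma F_ne : (⟨F, F_completary⟩ : Multifuncoid ℕ ℕ) ≠ ⊥ := by
  intro h
  have h1 : (fun _ => Set.univ : ℕ → Set ℕ) ∈ F := by
    refine ⟨fun i => ⟨i, by simp⟩, fun m => ?_⟩
    filter_upwards [Filter.eventually_ge_atTop m] with i hi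
    rw [Set.univ_inter]
    have : (Set.Iic i).ncard = i + 1 := by
      rw [← Finset.coe_Iic, Set.ncard_coe_finset, Nat.card_Iic]
    omega
  have h2 : F = ∅ := congrArg Subtype.val h
  rw [h2] at h1
  exact h1

/-- The poset of completary multifuncoids of the form `(𝒫 ℕ)^ℕ` is not atomic: there is a
completary multifuncoid different from the least one with no atom below it. -/
theorem result : ∃ f : Multifuncoid ℕ ℕ, f ≠ ⊥ ∧ ∀ a : Multifuncoid ℕ ℕ, IsAtom a → ¬ a ≤ f :=
  ⟨⟨F, F_completary⟩, F_ne, fun a ha hle => no_atom a ha hle⟩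

end Pool.Agent.Results.MP_2da57a_co.NotAtomic
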