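import Pool.Agent.Results.MP_2da57a_co.NotAtomic

set_option autoImplicit false

/-!
# MP_2da57a_co, Q2: the poset of completary multifuncoids of the form `(𝒫 ℕ)^ℕ` is not atomistic
-/

namespace Pool.Agent.Results.MP_2da57a_co.NotAtomistic

open Pool.Agent.Results.MP_2da57a_co.NotAtomic

/-- The poset of completary multifuncoids of the form `(𝒫 ℕ)^ℕ` is not atomistic: some
completary multifuncoid is not the least upper bound of the set of atoms below it. -/
theorem result : ∃ f : Multifuncoid ℕ ℕ, ¬ IsLUB {a : Multifuncoid ℕ ℕ | IsAtom a ∧ a ≤ f} f := by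
  obtain ⟨f, hf, h⟩ := NotAtomic.result
  refine ⟨f, fun hlub => hf ?_⟩
  have h1 : f ≤ ⊥ := hlub.2 (by
    rintro a ⟨ha, hle⟩
    exact absurd hle (h a ha))
  exact le_bot_iff.1 h1

end Pool.Agent.Results.MP_2da57a_co.NotAtomistic
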